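import Pool.Agent.Helper97.SZ.Goals

/-!
Project SZ, packet SCALE: a compactly supported diffeomorphism which is a homothety on a ball.
-/

set_option autoImplicit false

open Set Filter Topology Metric
open scoped ContDiff

namespace Pool.Agent.Helper59.SZ

open Pool.Agent.Helper91.SY Pool.Agent.Helper97.SZ

theorem scale (hGI : StmtGI) (hIV : StmtIV) : StmtSCALE := by
  intro E _ _ _ R₁ R₂ ε hR₁ hR₁₂ hε hε1
  let b : ContDiffBump (0 : E) := ⟨R₁, R₂, hR₁, hR₁₂⟩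
  have hbs : ContDiff ℝ ∞ (fun x : E => b x) := b.contDiff
  have hb1 : ∀ x : E, ‖x‖ ≤ R₁ → b x = 1 := fun x hx =>
    b.one_of_mem_closedBall (by simpa using hx)
  have hb0 : ∀ x : E, R₂ ≤ ‖x‖ → b x = 0 := fun x hx =>
    b.zero_of_le_dist (by simpa using hx)
  set F : E → E := fun x => b x • x with hF
  have hFs : ContDiff ℝ ∞ F := hbs.smul contDiff_id
  have hFc : HasCompactSupport F := b.hasCompactSupport.smul_right
  have hF' : Continuous (fderiv ℝ F) := hFs.continuous_fderiv (by simp)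
  obtain ⟨C, hC⟩ := (hFc.fderiv ℝ).exists_bound_of_continuous hF'
  have hC0 : 0 ≤ C := (norm_nonneg _).trans (hC 0)
  -- one step
  have step : ∀ δ : ℝ, 0 ≤ δ → δ * C < 1 → ∃ e : E ≃ E, (∀ x, e x = x - δ • F x) ∧ Sm e := by
    intro δ hδ hδC
    have hs : ContDiff ℝ ∞ (fun x => x - δ • F x) := contDiff_id.sub (hFs.const_smul δ)
    have hinj : ∀ x, Function.Injective (fderiv ℝ (fun x => x - δ • F x) x) := by
      intro x
      have hFd : DifferentiableAt ℝ F x := (hFs.differentiable (by simp)) x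
      have hd : fderiv ℝ (fun x => x - δ • F x) x
          = ContinuousLinearMap.id ℝ E - δ • fderiv ℝ F x := by
        have := (hasFDerivAt_id (𝕜 := ℝ) x).sub (hFd.hasFDerivAt.const_smul δ)
        exact this.fderiv
      rw [hd, injective_iff_map_eq_zero]
      intro u hu
      have hu' : u = δ • fderiv ℝ F x u := by
        have : u - δ • fderiv ℝ F x u = 0 := hu
        exact sub_eq_zero.mp this
      have h1 : ‖u‖ ≤ δ * C * ‖u‖ := by
        calc ‖u‖ = ‖δ • fderiv ℝ F x u‖ := by rw [← hu']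
          _ = δ * ‖fderiv ℝ F x u‖ := by rw [norm_smul, Real.norm_eq_abs, abs_of_nonneg hδ]
          _ ≤ δ * (‖fderiv ℝ F x‖ * ‖u‖) := by gcongr; exact (fderiv ℝ F x).le_opNorm u
          _ ≤ δ * (C * ‖u‖) := by gcongr; exact hC x
          _ = δ * C * ‖u‖ := by ring
      have h2 : ‖u‖ = 0 := by nlinarith [norm_nonneg u]
      exact norm_eq_zero.mp h2
    have hfar : ∀ x : E, R₂ ≤ ‖x‖ → x - δ • F x = x := by
      intro x hx
      simp [hF, hb0 x hx]
    obtain ⟨e, he1, he2⟩ := hIV E _ hs hinj (hGI E _ R₂ hs hinj hfar)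
    exact ⟨e, he1, he2⟩
  -- choice of `N`
  set δ₀ : ℝ := 1 / (C + 2) with hδ₀
  have hδ₀p : 0 < δ₀ := by positivity
  have hδ₀1 : δ₀ < 1 := by
    rw [hδ₀, div_lt_one (by positivity)]; linarith
  have hδ₀C : δ₀ * C < 1 := by
    rw [hδ₀, div_mul_eq_mul_div, one_mul, div_lt_one (by positivity)]; linarith
  obtain ⟨N₀, hN₀⟩ := exists_pow_lt_of_lt_one hε (by linarith : 1 - δ₀ < 1)
  set N := N₀ + 1 with hN
  have hN1 : (1 - δ₀) ^ N ≤ ε := by
    have h1 : (0 : ℝ) ≤ 1 - δ₀ := by linarith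
    calc (1 - δ₀) ^ N = (1 - δ₀) ^ N₀ * (1 - δ₀) := pow_succ _ _
      _ ≤ (1 - δ₀) ^ N₀ * 1 := by gcongr; linarith
      _ ≤ ε := by rw [mul_one]; exact hN₀.le
  set s : ℝ := ε ^ ((N : ℝ)⁻¹) with hs
  have hsN : s ^ N = ε := Real.rpow_inv_natCast_pow hε.le (by omega)
  have hs0 : 0 ≤ s := Real.rpow_nonneg hε.le _
  have hs1 : s ≤ 1 := Real.rpow_le_one hε.le hε1 (by positivity)
  have hsδ : 1 - δ₀ ≤ s := le_of_pow_le_pow_left₀ (n := N) (by omega) hs0 (by rw [hsN]; exact hN1)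
  obtain ⟨e, he, hSe⟩ := step (1 - s) (by linarith) (by
    calc (1 - s) * C ≤ δ₀ * C := by gcongr; linarith
      _ < 1 := hδ₀C)
  have hfar : ∀ x : E, R₂ ≤ ‖x‖ → e x = x := by
    intro x hx
    rw [he]
    simp [hF, hb0 x hx]
  have hnear : ∀ x : E, ‖x‖ ≤ R₁ → e x = s • x := by
    intro x hx
    rw [he]
    simp only [hF, hb1 x hx, one_smul]
    rw [sub_smul, one_smul, sub_sub_cancel]
  have key : ∀ n : ℕ, ∃ c : E ≃ E, Sm c ∧ (∀ x, R₂ ≤ ‖x‖ → c x = x) ∧
      ∀ x, ‖x‖ ≤ R₁ → c x = s ^ n • x := by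
    intro n
    induction n with
    | zero => exact ⟨Equiv.refl E, ⟨contDiff_id, contDiff_id⟩, fun x _ => rfl, fun x _ => by simp⟩
    | succ n ih =>
      obtain ⟨c, hc1, hc2, hc3⟩ := ih
      refine ⟨c.trans e, ⟨hSe.1.comp hc1.1, hc1.2.comp hSe.2⟩, ?_, ?_⟩
      · intro x hx
        rw [Equiv.trans_apply, hc2 x hx, hfar x hx]
      · intro x hx
        rw [Equiv.trans_apply, hc3 x hx, hnear, smul_smul, ← pow_succ']
        rw [norm_smul, Real.norm_eq_abs, abs_of_nonneg (pow_nonneg hs0 n)]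
        calc s ^ n * ‖x‖ ≤ 1 * ‖x‖ := by gcongr; exact pow_le_one₀ hs0 hs1
          _ ≤ R₁ := by rw [one_mul]; exact hx
  obtain ⟨c, hc1, hc2, hc3⟩ := key N
  refine ⟨c, hc1, hc2, fun x hx => ?_⟩
  rw [hc3 x hx, hsN]

end Pool.Agent.Helper59.SZ
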